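import Mathlib
import Pool.Agent.H.MP_87f021_gt.Sep

set_option autoImplicit false

namespace Pool.Agent.Results.MP_12e723_gt.Counter

open Pool.Agent.H.MP_87f021_gt TopologicalSpace

theorem result : ∃ (Y : Type) (_ : TopologicalSpace Y), T3Space Y ∧ SeparableSpace Y ∧
    (∀ y : Y, ¬ IsOpen ({y} : Set Y)) ∧
    ∃ B : Set (Set Y), IsTopologicalBasis B ∧
      ∀ B₀ B₁ : Set (Set Y), B₀ ∪ B₁ = B → Disjoint B₀ B₁ →
        ¬ (IsTopologicalBasis B₀ ∧ IsTopologicalBasis B₁) :=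
  ⟨Z, inferInstance, inferInstance, sepZ, noisoZ, BB, basisZ,
    fun B0 B1 h hd => not_resZ B0 B1 h.le hd⟩

end Pool.Agent.Results.MP_12e723_gt.Counter
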